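import Pool.Agent.P.MP_fabcd1_nt.Theta

/-!
A bound for normalised quadratic Gauss sums twisted by a primitive cube root of unity.
-/

namespace Pool.Agent.P.MP_fabcd1_nt

open Finset

lemma sum_shift {R : Type*} [AddCommGroup R] (f : ℕ → R) (T : ℕ) (hf : ∀ n, f (n + T) = f n)
    (d : ℕ) : ∑ b ∈ range T, f (b + d) = ∑ b ∈ range T, f b := by
  induction d with
  | zero => simp
  | succ d ih =>
    have h1 := Finset.sum_range_succ (fun b => f (b + d)) T
    have h2 := Finset.sum_range_succ' (fun b => f (b + d)) T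
    have h3 : f (T + d) = f (0 + d) := by rw [zero_add, add_comm, hf]
    rw [h1, h3] at h2
    rw [← ih, add_right_cancel h2]
    refine Finset.sum_congr rfl fun b _ => ?_
    congr 1
    ring

lemma pow_sq_per {T : ℕ} {ξ : ℂ} (h : ξ ^ T = 1) (n : ℕ) : ξ ^ ((n + T) ^ 2) = ξ ^ (n ^ 2) := by
  have : (n + T) ^ 2 = T * (T + 2 * n) + n ^ 2 := by ring
  rw [this, pow_add, pow_mul, h, one_pow, one_mul]

lemma G_eq {T : ℕ} {ξ : ℂ} (h : ξ ^ T = 1) : G T ξ = (∑ b ∈ range T, ξ ^ (b ^ 2)) / T := by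
  unfold G
  rw [sum_shift (fun b => ξ ^ (b ^ 2)) T (pow_sq_per h) 1]

lemma G_mul {T : ℕ} (hT : 0 < T) {ξ : ℂ} (h : ξ ^ T = 1) (M : ℕ) (hM : 0 < M) :
    G (T * M) ξ = G T ξ := by
  have h' : ξ ^ (T * M) = 1 := by rw [pow_mul, h, one_pow]
  rw [G_eq h, G_eq h']
  have : ∀ M : ℕ, ∑ b ∈ range (T * M), ξ ^ (b ^ 2) = M * ∑ b ∈ range T, ξ ^ (b ^ 2) := by
    intro M
    induction M with
    | zero => simp
    | succ M ih =>
      rw [Nat.mul_succ, Finset.sum_range_add, ih]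
      have := sum_shift (fun b => ξ ^ (b ^ 2)) T (pow_sq_per h) (T * M)
      simp only [add_comm (T * M)]
      rw [this]
      push_cast
      ring
  rw [this]
  have h1 : (T : ℂ) ≠ 0 := by exact_mod_cast hT.ne'
  have h2 : (M : ℂ) ≠ 0 := by exact_mod_cast hM.ne'
  push_cast
  field_simp

lemma G_indep {T T' : ℕ} (hT : 0 < T) (hT' : 0 < T') {ξ : ℂ} (h : ξ ^ T = 1) (h' : ξ ^ T' = 1) :
    G T ξ = G T' ξ := by
  rw [← G_mul hT h T' hT', mul_comm, G_mul hT' h' T hT]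

lemma geom_root {T : ℕ} {η : ℂ} (h : η ^ T = 1) :
    ∑ a ∈ range T, η ^ a = if η = 1 then (T : ℂ) else 0 := by
  split_ifs with h1
  · simp [h1]
  · rw [geom_sum_eq h1, h]; simp

lemma normSq_gauss {T : ℕ} (hT : 0 < T) {ξ : ℂ} (h : ξ ^ T = 1) :
    ‖∑ b ∈ range T, ξ ^ (b ^ 2)‖ ^ 2 ≤
      T * ∑ d ∈ range T, (if ξ ^ (2 * d) = 1 then (1 : ℝ) else 0) := by
  have hn := norm_one_of_pow hT h
  have hc : (starRingEnd ℂ) ξ * ξ = 1 := by
    rw [mul_comm, Complex.mul_conj, Complex.normSq_eq_norm_sq, hn]; simp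
  set S := ∑ b ∈ range T, ξ ^ (b ^ 2) with hS
  have h1 : (starRingEnd ℂ) S * S =
      ∑ d ∈ range T, ξ ^ (d ^ 2) * (if ξ ^ (2 * d) = 1 then (T : ℂ) else 0) := by
    have h2 : (starRingEnd ℂ) S * S = ∑ a ∈ range T, ∑ d ∈ range T, ξ ^ (d ^ 2) * (ξ ^ (2 * d)) ^ a := by
      conv_lhs => rw [hS, map_sum, Finset.sum_mul]
      refine Finset.sum_congr rfl fun a _ => ?_
      rw [← sum_shift (fun b => ξ ^ (b ^ 2)) T (pow_sq_per h) a, Finset.mul_sum]
      refine Finset.sum_congr rfl fun d _ => ?_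
      have : (d + a) ^ 2 = a ^ 2 + (d ^ 2 + 2 * d * a) := by ring
      rw [this, pow_add, map_pow, ← mul_assoc, ← mul_pow, hc, one_pow, one_mul, pow_add, pow_mul]
    rw [h2, Finset.sum_comm]
    refine Finset.sum_congr rfl fun d _ => ?_
    rw [← Finset.mul_sum, geom_root]
    rw [← pow_mul, mul_comm, pow_mul, h, one_pow]
  have h3 : ‖S‖ ^ 2 = ‖(starRingEnd ℂ) S * S‖ := by
    rw [norm_mul, Complex.norm_conj, sq]
  rw [h3, h1, Finset.mul_sum]
  refine (norm_sum_le _ _).trans (Finset.sum_le_sum fun d _ => ?_)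
  rw [norm_mul, norm_pow, hn]
  split_ifs <;> simp

lemma count_le {T : ℕ} {ξ : ℂ} (h : ξ ^ T = 1) (h2 : ξ ^ 2 ≠ 1) (h4 : ξ ^ 4 ≠ 1)
    (h6 : ξ ^ 6 ≠ 1) : 4 * ∑ d ∈ range T, (if ξ ^ (2 * d) = 1 then (1 : ℝ) else 0) ≤ T := by
  set f : ℕ → ℝ := fun d => if ξ ^ (2 * d) = 1 then (1 : ℝ) else 0 with hf
  have hper : ∀ n, f (n + T) = f n := by
    intro n
    have : ξ ^ (2 * (n + T)) = ξ ^ (2 * n) := by
      rw [mul_add, pow_add, mul_comm 2 T, pow_mul ξ T, h, one_pow, mul_one]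
    simp only [hf, this]
  have hsum : 4 * ∑ d ∈ range T, f d = ∑ d ∈ range T, (f d + f (d + 1) + f (d + 2) + f (d + 3)) := by
    simp only [Finset.sum_add_distrib, sum_shift f T hper]
    ring
  rw [hsum]
  have key : ∀ d e : ℕ, ξ ^ (2 * d) = 1 → ξ ^ (2 * (d + e)) = 1 → ξ ^ (2 * e) = 1 := by
    intro d e h1 h2
    rwa [mul_add, pow_add, h1, one_mul] at h2
  have : ∀ d ∈ range T, f d + f (d + 1) + f (d + 2) + f (d + 3) ≤ 1 := by
    intro d _
    have k01 := key d 1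
    have k02 := key d 2
    have k03 := key d 3
    have k12 := key (d + 1) 1
    have k13 := key (d + 1) 2
    have k23 := key (d + 2) 1
    simp only [hf, add_assoc] at *
    norm_num at k01 k02 k03 k12 k13 k23 ⊢
    split_ifs <;> simp_all
  simpa using Finset.sum_le_card_nsmul _ _ _ this

lemma norm_G_half {T : ℕ} (hT : 0 < T) {ξ : ℂ} (h : ξ ^ T = 1) (h2 : ξ ^ 2 ≠ 1) (h4 : ξ ^ 4 ≠ 1)
    (h6 : ξ ^ 6 ≠ 1) : ‖G T ξ‖ ≤ 1 / 2 := by
  have hT' : (0 : ℝ) < T := by exact_mod_cast hT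
  have h1 := normSq_gauss hT h
  have h3 := count_le h h2 h4 h6
  rw [G_eq h, norm_div, Complex.norm_natCast, div_le_iff₀ hT']
  refine (pow_le_pow_iff_left₀ (norm_nonneg _) (by positivity) two_ne_zero).mp ?_
  nlinarith

lemma re_omega {ω : ℂ} (hω : ω ^ 2 + ω + 1 = 0) : ω.re = -1 / 2 ∧ ‖ω‖ = 1 := by
  have h3 : ω ^ 3 = 1 := by linear_combination (ω - 1) * hω
  have hn : ‖ω‖ = 1 := norm_one_of_pow (by norm_num) h3
  refine ⟨?_, hn⟩
  have hc : ω * (starRingEnd ℂ) ω = 1 := by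
    rw [Complex.mul_conj, Complex.normSq_eq_norm_sq, hn]; simp
  have h4 : ω + (starRingEnd ℂ) ω = -1 := by
    linear_combination (starRingEnd ℂ) ω * hω - (ω + 1) * hc
  rw [Complex.add_conj] at h4
  have := congrArg Complex.re h4
  simp at this
  linarith

lemma gauss_half {T : ℕ} (hT : 0 < T) {ξ : ℂ} (h : ξ ^ T = 1) {ω : ℂ} (hω : ω ^ 2 + ω + 1 = 0) :
    (ω * G T ξ).re ≤ 1 / 2 := by
  obtain ⟨hre, hn⟩ := re_omega hω
  have hξ := norm_one_of_pow hT h
  have hb : (ω * ξ).re ≤ 1 := by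
    refine (Complex.re_le_norm _).trans ?_
    rw [norm_mul, hn, hξ, one_mul]
  by_cases h4 : ξ ^ 4 = 1
  · have : G T ξ = (1 + ξ) / 2 := by
      rw [G_indep hT (by norm_num) h h4]
      unfold G
      simp only [Finset.sum_range_succ, Finset.sum_range_zero]
      norm_num
      linear_combination (1 / 4 * (1 + ξ * (ξ ^ 4 + 1) + (ξ ^ 12 + ξ ^ 8 + ξ ^ 4 + 1))) * h4
    rw [this]
    have : ω * ((1 + ξ) / 2) = (1 / 2 : ℝ) * (ω + ω * ξ) := by push_cast; ring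
    rw [this, Complex.re_ofReal_mul, Complex.add_re]
    linarith
  have h2 : ξ ^ 2 ≠ 1 := by
    intro h2
    apply h4
    linear_combination (ξ ^ 2 + 1) * h2
  by_cases h6 : ξ ^ 6 = 1
  · have h3 : (ξ ^ 3 - 1) * (ξ ^ 3 + 1) = 0 := by linear_combination h6
    rcases mul_eq_zero.mp h3 with h3 | h3
    · have h3' : ξ ^ 3 = 1 := by linear_combination h3
      have : G T ξ = (1 + 2 * ξ) / 3 := by
        rw [G_indep hT (by norm_num) h h3']
        unfold G
        simp only [Finset.sum_range_succ, Finset.sum_range_zero]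
        norm_num
        linear_combination (ξ + (ξ ^ 6 + ξ ^ 3 + 1)) * h3'
      rw [this]
      have : ω * ((1 + 2 * ξ) / 3) = (1 / 3 : ℝ) * (ω + ω * ξ + ω * ξ) := by push_cast; ring
      rw [this, Complex.re_ofReal_mul, Complex.add_re, Complex.add_re]
      linarith
    · have : G T ξ = 0 := by
        rw [G_indep hT (by norm_num) h h6]
        unfold G
        simp only [Finset.sum_range_succ, Finset.sum_range_zero]
        norm_num
        have e3 : ξ ^ 3 = -1 := by linear_combination h3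
        have e4 : ξ ^ 4 = -ξ := by linear_combination ξ * e3
        have e9 : ξ ^ 9 = -1 := by
          rw [show ξ ^ 9 = (ξ ^ 3) ^ 3 by ring, e3]; norm_num
        have e16 : ξ ^ 16 = -ξ := by
          rw [show ξ ^ 16 = (ξ ^ 3) ^ 5 * ξ by ring, e3]; ring
        have e25 : ξ ^ 25 = ξ := by
          rw [show ξ ^ 25 = (ξ ^ 3) ^ 8 * ξ by ring, e3]; ring
        have e36 : ξ ^ 36 = 1 := by
          rw [show ξ ^ 36 = (ξ ^ 3) ^ 12 by ring, e3]; norm_num
        rw [e4, e9, e16, e25, e36]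
        ring
      rw [this]
      simp
  · refine (Complex.re_le_norm _).trans ?_
    rw [norm_mul, hn, one_mul]
    exact norm_G_half hT h h2 h4 h6

lemma G_three {ξ : ℂ} (h : ξ ^ 3 = 1) : G 3 ξ = (1 + 2 * ξ) / 3 := by
  unfold G
  simp only [Finset.sum_range_succ, Finset.sum_range_zero]
  norm_num
  linear_combination (ξ + (ξ ^ 6 + ξ ^ 3 + 1)) * h

lemma star_term {ω : ℂ} (hω : ω ^ 2 + ω + 1 = 0) (m : ℕ) :
    ω ^ m * G 3 ((ω ^ 2) ^ m) = (2 + ω ^ m) / 3 := by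
  have h3 : ω ^ 3 = 1 := by linear_combination (ω - 1) * hω
  have h3m : (ω ^ m) ^ 3 = 1 := by rw [← pow_mul, mul_comm, pow_mul, h3, one_pow]
  have : (ω ^ 2) ^ m = (ω ^ m) ^ 2 := by rw [← pow_mul, mul_comm, pow_mul]
  rw [this, G_three (by rw [← pow_mul, mul_comm, pow_mul, h3m, one_pow])]
  linear_combination (2 / 3) * h3m

lemma termwise {T : ℕ} (hT : 0 < T) {ζ : ℂ} (h : ζ ^ T = 1) {ω : ℂ} (hω : ω ^ 2 + ω + 1 = 0)
    (m : ℕ) : (ω ^ m * G T (ζ ^ m)).re ≤ (ω ^ m * G 3 ((ω ^ 2) ^ m)).re := by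
  have h3 : ω ^ 3 = 1 := by linear_combination (ω - 1) * hω
  have h3m : (ω ^ m) ^ 3 = 1 := by rw [← pow_mul, mul_comm, pow_mul, h3, one_pow]
  have hζ : (ζ ^ m) ^ T = 1 := by rw [← pow_mul, mul_comm, pow_mul, h, one_pow]
  rw [star_term hω]
  by_cases h1 : ω ^ m = 1
  · rw [h1, one_mul]
    refine (Complex.re_le_norm _).trans ((norm_G_le hT hζ).trans ?_)
    norm_num
  · have h2 : (ω ^ m) ^ 2 + ω ^ m + 1 = 0 := by
      have : (ω ^ m - 1) * ((ω ^ m) ^ 2 + ω ^ m + 1) = 0 := by linear_combination h3m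
      rcases mul_eq_zero.mp this with h4 | h4
      · exact absurd (by linear_combination h4) h1
      · exact h4
    refine (gauss_half hT hζ h2).trans ?_
    have : (2 + ω ^ m) / 3 = (1 / 3 : ℝ) * (2 + ω ^ m) := by push_cast; ring
    rw [this, Complex.re_ofReal_mul, Complex.add_re, (re_omega h2).1]
    norm_num

end Pool.Agent.P.MP_fabcd1_nt
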