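import Mathlib

/-!
Analytic generating function of partitions with parts in a set `S`, weighted by
`z ^ (number of parts)`.
-/

namespace Pool.Agent.P.MP_fabcd1_nt

open Finset Filter Topology PowerSeries
open scoped PowerSeries.WithPiTopology

/-- absolutely convergent evaluation of a formal power series -/
def Ev (A : PowerSeries ℂ) (q z : ℂ) : Prop :=
  Summable (fun n => ‖coeff n A * q ^ n‖) ∧ HasSum (fun n => coeff n A * q ^ n) z

lemma Ev.mul {A B : PowerSeries ℂ} {q z w : ℂ} (hA : Ev A q z) (hB : Ev B q w) :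
    Ev (A * B) q (z * w) := by
  have key : ∀ n, coeff n (A * B) * q ^ n =
      ∑ kl ∈ antidiagonal n, (coeff kl.1 A * q ^ kl.1) * (coeff kl.2 B * q ^ kl.2) := by
    intro n
    rw [coeff_mul, Finset.sum_mul]
    refine Finset.sum_congr rfl fun kl hkl => ?_
    rw [← mem_antidiagonal.mp hkl, pow_add]
    ring
  have h1 := summable_norm_sum_mul_antidiagonal_of_summable_norm hA.1 hB.1
  have h2 := tsum_mul_tsum_eq_tsum_sum_antidiagonal_of_summable_norm hA.1 hB.1
  refine ⟨by simpa only [key] using h1, ?_⟩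
  simp only [key]
  rw [hA.2.tsum_eq, hB.2.tsum_eq] at h2
  rw [h2]
  exact (Summable.of_norm h1).hasSum

lemma Ev.one (q : ℂ) : Ev 1 q 1 := by
  have h : HasSum (fun n => coeff n (1 : PowerSeries ℂ) * q ^ n) 1 := by
    have := hasSum_single (f := fun n => coeff n (1 : PowerSeries ℂ) * q ^ n) 0
      (by intro n hn; simp [coeff_one, hn])
    simpa using this
  exact ⟨h.summable.norm, h⟩

lemma Ev.prod {q : ℂ} (A : ℕ → PowerSeries ℂ) (z : ℕ → ℂ) (h : ∀ i, Ev (A i) q (z i)) (N : ℕ) :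
    Ev (∏ i ∈ range N, A i) q (∏ i ∈ range N, z i) := by
  induction N with
  | zero => simpa using Ev.one q
  | succ N ih => rw [prod_range_succ, prod_range_succ]; exact ih.mul (h N)

lemma coeff_factor (z : ℂ) (s : ℕ) (hs : s ≠ 0) (n : ℕ) :
    coeff n (1 + ∑' j, z ^ (j + 1) • (X : PowerSeries ℂ) ^ (s * (j + 1))) =
      if s ∣ n then z ^ (n / s) else 0 := by
  have hsum := Nat.Partition.summable_genFun_term' (R := ℂ) (fun _ j => z ^ j) hs
  rw [map_add, hsum.map_tsum _ (WithPiTopology.continuous_coeff _ _)]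
  simp only [map_smul, coeff_X_pow, coeff_one, smul_eq_mul, mul_ite, mul_one, mul_zero]
  by_cases hd : s ∣ n
  · obtain ⟨m, rfl⟩ := hd
    rw [if_pos (dvd_mul_right _ _), Nat.mul_div_cancel_left _ (Nat.pos_of_ne_zero hs)]
    rcases m with _ | m
    · simp [hs]
    · have h0 : ¬ (s * (m + 1) = 0) := Nat.mul_ne_zero hs (Nat.succ_ne_zero m)
      rw [if_neg h0, zero_add, tsum_eq_single m]
      · simp
      · intro j hj
        rw [if_neg]
        intro h
        have := Nat.eq_of_mul_eq_mul_left (Nat.pos_of_ne_zero hs) h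
        omega
  · have h0 : n ≠ 0 := by rintro rfl; exact hd (dvd_zero _)
    have : ∀ j : ℕ, ¬ (n = s * (j + 1)) := by
      rintro j rfl; exact hd (dvd_mul_right _ _)
    simp [hd, h0, this]

lemma hasSum_congr_fun' {f g : ℕ → ℂ} {a : ℂ} (h : ∀ m, g m = f m) :
    HasSum f a ↔ HasSum g a := by
  rw [funext h]

lemma Ev.factor (z q : ℂ) (s : ℕ) (hs : s ≠ 0) (h : ‖z * q ^ s‖ < 1) :
    Ev (1 + ∑' j, z ^ (j + 1) • (X : PowerSeries ℂ) ^ (s * (j + 1))) q (1 - z * q ^ s)⁻¹ := by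
  have hinj : Function.Injective (fun m : ℕ => s * m) := fun a b hab =>
    Nat.eq_of_mul_eq_mul_left (Nat.pos_of_ne_zero hs) hab
  have h1 : HasSum (fun n => coeff n
      (1 + ∑' j, z ^ (j + 1) • (X : PowerSeries ℂ) ^ (s * (j + 1))) * q ^ n)
      (1 - z * q ^ s)⁻¹ := by
    rw [← hinj.hasSum_iff]
    · have := hasSum_geometric_of_norm_lt_one h
      refine (hasSum_congr_fun' ?_).mp this
      intro m
      simp only [Function.comp]
      rw [coeff_factor z s hs, if_pos (dvd_mul_right _ _),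
        Nat.mul_div_cancel_left _ (Nat.pos_of_ne_zero hs), mul_pow, pow_mul]
    · intro n hn
      rw [coeff_factor z s hs, if_neg, zero_mul]
      rintro ⟨m, rfl⟩
      exact hn ⟨m, rfl⟩
  exact ⟨h1.summable.norm, h1⟩

open Classical in
/-- weighted count of the partitions of `n` with parts in `S` -/
noncomputable def cf (S : Set ℕ) (z : ℂ) (n : ℕ) : ℂ :=
  ∑ P : n.Partition, if ∀ i ∈ P.parts, i ∈ S then z ^ P.parts.card else 0

open Classical in
/-- number of partitions of `n` with parts in `S`, as a real number -/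
noncomputable def cnt (S : Set ℕ) (n : ℕ) : ℝ :=
  ∑ P : n.Partition, if ∀ i ∈ P.parts, i ∈ S then 1 else 0

lemma cf_one (S : Set ℕ) (n : ℕ) : cf S 1 n = (cnt S n : ℂ) := by
  unfold cf cnt
  push_cast
  refine Finset.sum_congr rfl fun P _ => ?_
  split_ifs <;> simp

lemma cnt_nonneg (S : Set ℕ) (n : ℕ) : 0 ≤ cnt S n := by
  unfold cnt
  refine Finset.sum_nonneg fun P _ => ?_
  split_ifs <;> simp

lemma norm_cf_le (S S' : Set ℕ) (hS : S ⊆ S') (z : ℂ) (hz : ‖z‖ ≤ 1) (n : ℕ) :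
    ‖cf S z n‖ ≤ cnt S' n := by
  unfold cf cnt
  refine (norm_sum_le _ _).trans (Finset.sum_le_sum fun P _ => ?_)
  by_cases h : ∀ i ∈ P.parts, i ∈ S
  · rw [if_pos h, if_pos (fun i hi => hS (h i hi)), norm_pow]
    exact pow_le_one₀ (norm_nonneg _) hz
  · rw [if_neg h]
    split_ifs <;> simp

lemma cf_trunc (S : Set ℕ) (z : ℂ) (n N : ℕ) (h : n ≤ N) :
    cf (S ∩ Set.Iic N) z n = cf S z n := by
  unfold cf
  refine Finset.sum_congr rfl fun P _ => ?_
  have : (∀ i ∈ P.parts, i ∈ S ∩ Set.Iic N) ↔ ∀ i ∈ P.parts, i ∈ S :=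
    ⟨fun h i hi => (h i hi).1, fun h' i hi =>
      ⟨h' i hi, (Nat.Partition.le_of_mem_parts hi).trans h⟩⟩
  by_cases h2 : ∀ i ∈ P.parts, i ∈ S
  · rw [if_pos h2, if_pos (this.mpr h2)]
  · rw [if_neg h2, if_neg (fun h3 => h2 (this.mp h3))]

open Classical in
lemma coeff_genFun_cf (S : Set ℕ) (z : ℂ) (n : ℕ) :
    coeff n (Nat.Partition.genFun (fun i j => if i ∈ S then z ^ j else 0)) = cf S z n := by
  rw [Nat.Partition.coeff_genFun]
  unfold cf
  refine Finset.sum_congr rfl fun P _ => ?_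
  simp only [Finsupp.prod, Multiset.toFinsupp_support, Multiset.toFinsupp_apply]
  by_cases h : ∀ i ∈ P.parts, i ∈ S
  · rw [if_pos h, ← Multiset.toFinset_sum_count_eq, ← Finset.prod_pow_eq_pow_sum]
    refine Finset.prod_congr rfl fun i hi => ?_
    rw [if_pos (h i (Multiset.mem_toFinset.mp hi))]
  · rw [if_neg h]
    push Not at h
    obtain ⟨i, hi, hi'⟩ := h
    exact Finset.prod_eq_zero (Multiset.mem_toFinset.mpr hi) (if_neg hi')

lemma norm_term_lt (z q : ℂ) (hz : ‖z‖ ≤ 1) (hq : ‖q‖ < 1) (i : ℕ) : ‖z * q ^ (i + 1)‖ < 1 := by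
  rw [norm_mul, norm_pow]
  calc ‖z‖ * ‖q‖ ^ (i + 1) ≤ 1 * ‖q‖ ^ (i + 1) := by gcongr
    _ < 1 := by rw [one_mul]; exact pow_lt_one₀ (norm_nonneg _) hq (Nat.succ_ne_zero i)

open Classical in
lemma genFun_trunc (S : Set ℕ) (z : ℂ) (N : ℕ) :
    Nat.Partition.genFun (fun i j => if i ∈ S ∩ Set.Iic N then z ^ j else 0) =
    ∏ i ∈ range N, ((1 : PowerSeries ℂ) + ∑' j, (if i + 1 ∈ S then z ^ (j + 1) else 0) •
      (X : PowerSeries ℂ) ^ ((i + 1) * (j + 1))) := by
  have hp := Nat.Partition.hasProd_genFun (R := ℂ)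
    (fun i j => if i ∈ S ∩ Set.Iic N then z ^ j else 0)
  have hp2 : HasProd (fun i => (1 : PowerSeries ℂ) +
      ∑' j, (if i + 1 ∈ S ∩ Set.Iic N then z ^ (j + 1) else 0) •
      (X : PowerSeries ℂ) ^ ((i + 1) * (j + 1))) (∏ i ∈ range N, ((1 : PowerSeries ℂ) +
      ∑' j, (if i + 1 ∈ S ∩ Set.Iic N then z ^ (j + 1) else 0) •
      (X : PowerSeries ℂ) ^ ((i + 1) * (j + 1)))) := by
    refine hasProd_prod_of_ne_finset_one ?_
    intro i hi
    have : i + 1 ∉ S ∩ Set.Iic N := by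
      intro h
      have := h.2
      simp at hi this
      omega
    simp only [this, if_false, zero_smul, tsum_zero, add_zero]
  rw [hp.unique hp2]
  refine Finset.prod_congr rfl fun i hi => ?_
  have : i + 1 ∈ S ∩ Set.Iic N ↔ i + 1 ∈ S :=
    ⟨fun h => h.1, fun h => ⟨h, by simpa using hi⟩⟩
  by_cases h : i + 1 ∈ S
  · simp only [if_pos h, if_pos (this.mpr h)]
  · simp only [if_neg h, if_neg (fun h2 => h (this.mp h2))]

open Classical in
lemma ev_trunc (S : Set ℕ) (z q : ℂ) (hz : ‖z‖ ≤ 1) (hq : ‖q‖ < 1) (N : ℕ) :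
    Summable (fun n => ‖cf (S ∩ Set.Iic N) z n * q ^ n‖) ∧
    HasSum (fun n => cf (S ∩ Set.Iic N) z n * q ^ n)
      (∏ i ∈ range N, if i + 1 ∈ S then (1 - z * q ^ (i + 1))⁻¹ else 1) := by
  have hev : Ev (∏ i ∈ range N, ((1 : PowerSeries ℂ) +
      ∑' j, (if i + 1 ∈ S then z ^ (j + 1) else 0) •
      (X : PowerSeries ℂ) ^ ((i + 1) * (j + 1)))) q
      (∏ i ∈ range N, if i + 1 ∈ S then (1 - z * q ^ (i + 1))⁻¹ else 1) := by
    refine Ev.prod _ _ (fun i => ?_) N
    by_cases hi : i + 1 ∈ S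
    · simp only [hi, if_true]
      exact Ev.factor z q (i + 1) (Nat.succ_ne_zero i) (norm_term_lt z q hz hq i)
    · simp only [hi, if_false, zero_smul, tsum_zero, add_zero]
      exact Ev.one q
  rw [← genFun_trunc] at hev
  have h1 := hev.1
  have h2 := hev.2
  have h3 : ∀ n, coeff n (Nat.Partition.genFun
      (fun i j => if i ∈ S ∩ Set.Iic N then z ^ j else 0)) = cf (S ∩ Set.Iic N) z n := by
    intro n
    convert coeff_genFun_cf (S ∩ Set.Iic N) z n
  simp only [h3] at h1 h2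
  exact ⟨h1, h2⟩

lemma exp_neg_log (y : ℂ) (hy : ‖y‖ < 1) : Complex.exp (-Complex.log (1 - y)) = (1 - y)⁻¹ := by
  have : (1 - y) ≠ 0 := by
    intro h
    have : y = 1 := by linear_combination -h
    rw [this] at hy
    simp at hy
  rw [Complex.exp_neg, Complex.exp_log this]

open Classical in
lemma summable_log (S : Set ℕ) (z q : ℂ) (hq : ‖q‖ < 1) :
    Summable (fun i : ℕ => if i + 1 ∈ S then -Complex.log (1 - z * q ^ (i + 1)) else 0) := by
  have h1 : Summable (fun i : ℕ => -(z * q ^ (i + 1))) := by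
    refine Summable.neg (Summable.mul_left _ ?_)
    simp only [pow_succ]
    exact (summable_geometric_of_norm_lt_one hq).mul_right _
  have h2 := (Complex.summable_log_one_add_of_summable h1).neg
  refine Summable.of_norm_bounded h2.norm fun i => ?_
  split_ifs
  · simp [sub_eq_add_neg]
  · simp

open Classical in
lemma tendsto_prod (S : Set ℕ) (z q : ℂ) (hz : ‖z‖ ≤ 1) (hq : ‖q‖ < 1) :
    Tendsto (fun N => ∏ i ∈ range N, if i + 1 ∈ S then (1 - z * q ^ (i + 1))⁻¹ else 1) atTop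
      (𝓝 (Complex.exp (∑' i : ℕ, if i + 1 ∈ S then -Complex.log (1 - z * q ^ (i + 1)) else 0))) := by
  have h := (Complex.continuous_exp.tendsto _).comp
    (summable_log S z q hq).hasSum.tendsto_sum_nat
  refine h.congr fun N => ?_
  simp only [Function.comp]
  rw [Complex.exp_sum]
  refine Finset.prod_congr rfl fun i _ => ?_
  split_ifs
  · exact exp_neg_log _ (norm_term_lt z q hz hq i)
  · simp

lemma summable_cnt (S : Set ℕ) (x : ℝ) (hx0 : 0 ≤ x) (hx : x < 1) :
    Summable (fun n => cnt S n * x ^ n) := by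
  classical
  have hq : ‖(x : ℂ)‖ < 1 := by simpa [abs_of_nonneg hx0] using hx
  obtain ⟨B, hB⟩ := ((tendsto_prod S 1 x (by simp) hq).norm).bddAbove_range
  refine summable_of_sum_range_le (c := B)
    (fun n => mul_nonneg (cnt_nonneg S n) (pow_nonneg hx0 n)) fun N => ?_
  have h := (ev_trunc S 1 x (by simp) hq N).2
  have hre := Complex.hasSum_re h
  have hnn : ∀ n, (cf (S ∩ Set.Iic N) 1 n * (x : ℂ) ^ n).re = cnt (S ∩ Set.Iic N) n * x ^ n := by
    intro n
    rw [cf_one, ← Complex.ofReal_pow, ← Complex.ofReal_mul, Complex.ofReal_re]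
  simp only [hnn] at hre
  have h1 := sum_le_hasSum (range N)
    (fun n _ => mul_nonneg (cnt_nonneg (S ∩ Set.Iic N) n) (pow_nonneg hx0 n)) hre
  have h2 : ∑ n ∈ range N, cnt S n * x ^ n = ∑ n ∈ range N, cnt (S ∩ Set.Iic N) n * x ^ n := by
    refine Finset.sum_congr rfl fun n hn => ?_
    have := cf_trunc S 1 n N (mem_range.mp hn).le
    rw [cf_one, cf_one] at this
    rw [Complex.ofReal_injective this]
  rw [h2]
  exact h1.trans ((Complex.re_le_norm _).trans (hB ⟨N, rfl⟩))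

lemma summable_norm_cf (S : Set ℕ) (z : ℂ) (hz : ‖z‖ ≤ 1) (x : ℝ) (hx0 : 0 ≤ x) (hx : x < 1) :
    Summable (fun n => ‖cf S z n‖ * x ^ n) :=
  Summable.of_nonneg_of_le (fun n => by positivity)
    (fun n => mul_le_mul_of_nonneg_right (norm_cf_le S S subset_rfl z hz n) (pow_nonneg hx0 n))
    (summable_cnt S x hx0 hx)

open Classical in
theorem hasSum_cf (S : Set ℕ) (z q : ℂ) (hz : ‖z‖ ≤ 1) (hq : ‖q‖ < 1) :
    HasSum (fun n => cf S z n * q ^ n)
      (Complex.exp (∑' i : ℕ, if i + 1 ∈ S then -Complex.log (1 - z * q ^ (i + 1)) else 0)) := by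
  have hs := summable_cnt S ‖q‖ (norm_nonneg _) hq
  have hs' : Summable (fun n => cf S z n * q ^ n) := by
    refine Summable.of_norm_bounded (summable_norm_cf S z hz ‖q‖ (norm_nonneg _) hq) fun n => ?_
    rw [norm_mul, norm_pow]
  have ht : Tendsto (fun N => ∑' n, cf (S ∩ Set.Iic N) z n * q ^ n) atTop
      (𝓝 (∑' n, cf S z n * q ^ n)) := by
    refine tendsto_tsum_of_dominated_convergence hs (fun n => ?_) (Eventually.of_forall ?_)
    · refine tendsto_const_nhds.congr' ?_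
      filter_upwards [eventually_ge_atTop n] with N hN
      rw [cf_trunc S z n N hN]
    · intro N n
      rw [norm_mul, norm_pow]
      exact mul_le_mul_of_nonneg_right (norm_cf_le _ S Set.inter_subset_left z hz n)
        (pow_nonneg (norm_nonneg _) n)
  have ht2 := tendsto_prod S z q hz hq
  have : ∀ N, ∑' n, cf (S ∩ Set.Iic N) z n * q ^ n =
      ∏ i ∈ range N, if i + 1 ∈ S then (1 - z * q ^ (i + 1))⁻¹ else 1 := fun N =>
    (ev_trunc S z q hz hq N).2.tsum_eq
  simp only [this] at ht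
  rw [← tendsto_nhds_unique ht ht2]
  exact hs'.hasSum

end Pool.Agent.P.MP_fabcd1_nt
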