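import Pool.Agent.P.MP_fabcd1_nt.Gauss
import Pool.Agent.P.MP_fabcd1_nt.GenFun

/-!
Growth of the logarithm of the twisted generating function near roots of unity.
-/

namespace Pool.Agent.P.MP_fabcd1_nt

open Finset Filter Topology

/-- the positive squares -/
def Sq : Set ℕ := {s | ∃ j : ℕ, 1 ≤ j ∧ s = j ^ 2}

open Classical in
/-- logarithm of the generating function -/
noncomputable def Lam (z q : ℂ) : ℂ :=
  ∑' i : ℕ, if i + 1 ∈ Sq then -Complex.log (1 - z * q ^ (i + 1)) else 0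

lemma Lam_eq (z q : ℂ) : Lam z q = ∑' j : ℕ, -Complex.log (1 - z * q ^ ((j + 1) ^ 2)) := by
  classical
  have hinj : Function.Injective (fun j : ℕ => j ^ 2 + 2 * j) := by
    apply StrictMono.injective
    intro a b hab
    have : a ^ 2 ≤ b ^ 2 := by gcongr
    simp only
    omega
  unfold Lam
  rw [← hinj.tsum_eq]
  · refine tsum_congr fun j => ?_
    have : j ^ 2 + 2 * j + 1 = (j + 1) ^ 2 := by ring
    rw [this, if_pos ⟨j + 1, by omega, rfl⟩]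
  · intro i hi
    rw [Function.mem_support] at hi
    have : i + 1 ∈ Sq := by
      by_contra h
      exact hi (if_neg h)
    obtain ⟨j, hj, hij⟩ := this
    obtain ⟨k, rfl⟩ := Nat.exists_eq_add_of_le' hj
    refine ⟨k, ?_⟩
    have : (k + 1) ^ 2 = k ^ 2 + 2 * k + 1 := by ring
    simp only
    omega

lemma Lam_swap (z q : ℂ) (hz : ‖z‖ ≤ 1) (hq : ‖q‖ < 1) :
    Lam z q = ∑' r : ℕ, z ^ (r + 1) / (r + 1) * ∑' j : ℕ, (q ^ (r + 1)) ^ ((j + 1) ^ 2) := by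
  have hlt : ∀ j : ℕ, ‖z * q ^ ((j + 1) ^ 2)‖ < 1 := by
    intro j
    have : (j + 1) ^ 2 = (j ^ 2 + 2 * j) + 1 := by ring
    rw [this]
    exact norm_term_lt z q hz hq _
  have hs : Summable (Function.uncurry fun (j r : ℕ) =>
      (z * q ^ ((j + 1) ^ 2)) ^ (r + 1) / ((r : ℂ) + 1)) := by
    have hg := summable_geometric_of_lt_one (norm_nonneg q) hq
    have h2 : Summable (fun x : ℕ × ℕ => ‖q‖ ^ x.1 * ‖q‖ ^ x.2) :=
      hg.mul_of_nonneg hg (fun _ => by positivity) (fun _ => by positivity)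
    refine Summable.of_norm_bounded h2 ?_
    rintro ⟨j, r⟩
    simp only [Function.uncurry]
    have h1 : (1 : ℝ) ≤ ‖((r : ℂ) + 1)‖ := by
      have : ((r : ℂ) + 1) = ((r + 1 : ℕ) : ℂ) := by push_cast; ring
      rw [this, Complex.norm_natCast]
      exact_mod_cast Nat.succ_pos r
    rw [norm_div, norm_pow, norm_mul, norm_pow, ← pow_add]
    calc (‖z‖ * ‖q‖ ^ (j + 1) ^ 2) ^ (r + 1) / ‖(r : ℂ) + 1‖
        ≤ (1 * ‖q‖ ^ (j + 1) ^ 2) ^ (r + 1) / 1 := by gcongr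
      _ = ‖q‖ ^ ((j + 1) ^ 2 * (r + 1)) := by rw [one_mul, div_one, ← pow_mul]
      _ ≤ ‖q‖ ^ (j + r) := pow_le_pow_of_le_one (norm_nonneg _) hq.le (by nlinarith [Nat.zero_le (j ^ 2), Nat.zero_le (j * r), Nat.zero_le (j ^ 2 * r)])
  rw [Lam_eq]
  have h1 : ∀ j : ℕ, -Complex.log (1 - z * q ^ ((j + 1) ^ 2)) =
      ∑' r : ℕ, (z * q ^ ((j + 1) ^ 2)) ^ (r + 1) / ((r : ℂ) + 1) := fun j =>
    (Complex.hasSum_taylorSeries_neg_log' (hlt j)).tsum_eq.symm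
  simp only [h1]
  rw [← hs.tsum_comm]
  refine tsum_congr fun r => ?_
  rw [← tsum_mul_left]
  refine tsum_congr fun j => ?_
  rw [mul_pow, ← pow_mul, ← pow_mul, mul_comm (r + 1)]
  ring

/-- weights -/
noncomputable def cw (r : ℕ) : ℝ := √(Real.pi / (r + 1)) / (r + 1)

lemma cw_pos (r : ℕ) : 0 < cw r := by
  unfold cw
  have : 0 < √(Real.pi / (r + 1)) := Real.sqrt_pos.mpr (by positivity)
  positivity

lemma cw_anti {r r' : ℕ} (h : r < r') : cw r' < cw r := by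
  unfold cw
  have h' : (r : ℝ) + 1 < r' + 1 := by exact_mod_cast Nat.succ_lt_succ h
  have : 0 < √(Real.pi / (r + 1)) := Real.sqrt_pos.mpr (by positivity)
  calc √(Real.pi / (r' + 1)) / (r' + 1) ≤ √(Real.pi / (r + 1)) / (r' + 1) := by
        gcongr
    _ < _ := by gcongr

lemma summable_cw : Summable cw := by
  have h := (Real.summable_nat_rpow_inv (p := 3 / 2)).mpr (by norm_num)
  have h2 := ((summable_nat_add_iff 1).mpr h).mul_left (√Real.pi)
  refine h2.congr fun r => ?_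
  unfold cw
  have hr : (0 : ℝ) < (r : ℝ) + 1 := by positivity
  rw [Real.sqrt_div Real.pi_pos.le, Real.sqrt_eq_rpow ((r : ℝ) + 1),
    show (3 / 2 : ℝ) = 1 / 2 + 1 by norm_num]
  push_cast
  rw [Real.rpow_add hr, Real.rpow_one]
  field_simp

/-- the growth constant at the root of unity `ζ` -/
noncomputable def Lz (z : ℂ) (T : ℕ) (ζ : ℂ) : ℂ :=
  ∑' r : ℕ, (cw r : ℂ) * (z ^ (r + 1) * G T (ζ ^ (r + 1)))

lemma summable_Lz {z : ℂ} (hz : ‖z‖ ≤ 1) {T : ℕ} (hT : 0 < T) {ζ : ℂ} (h : ζ ^ T = 1) :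
    Summable fun r : ℕ => (cw r : ℂ) * (z ^ (r + 1) * G T (ζ ^ (r + 1))) := by
  refine Summable.of_norm_bounded summable_cw fun r => ?_
  have hζ : (ζ ^ (r + 1)) ^ T = 1 := by rw [← pow_mul, mul_comm, pow_mul, h, one_pow]
  rw [norm_mul, norm_mul, norm_pow, Complex.norm_real, Real.norm_of_nonneg (cw_pos r).le]
  have h1 := norm_G_le hT hζ
  have h2 : ‖z‖ ^ (r + 1) ≤ 1 := pow_le_one₀ (norm_nonneg _) hz
  have h3 := cw_pos r
  calc cw r * (‖z‖ ^ (r + 1) * ‖G T (ζ ^ (r + 1))‖) ≤ cw r * (1 * 1) := by gcongr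
    _ = cw r := by ring

lemma norm_pt {ζ : ℂ} (h : ‖ζ‖ = 1) (β : ℂ) (s : ℝ) :
    ‖ζ * gs (β ^ 2) s‖ = Real.exp (-(β ^ 2).re * s ^ 2) := by
  rw [norm_mul, h, one_mul, norm_gs]; rfl

lemma norm_pt_lt {ζ : ℂ} (h : ‖ζ‖ = 1) (β : ℂ) (hβ2 : 0 < (β ^ 2).re) (s : ℝ) (hs : 0 < s) :
    ‖ζ * gs (β ^ 2) s‖ < 1 := by
  rw [norm_pt h, Real.exp_lt_one_iff]
  have : 0 < (β ^ 2).re * s ^ 2 := by positivity
  linarith

theorem Lam_tendsto {z : ℂ} (hz : ‖z‖ ≤ 1) {T : ℕ} (hT : 0 < T) {ζ : ℂ} (h : ζ ^ T = 1)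
    (β : ℂ) (hβ : 0 < β.re) (hβ2 : 0 < (β ^ 2).re) :
    Tendsto (fun s : ℝ => (s : ℂ) * Lam z (ζ * gs (β ^ 2) s)) (𝓝[>] 0)
      (𝓝 (Lz z T ζ / (2 * β))) := by
  have hn := norm_one_of_pow hT h
  have hζ : ∀ r : ℕ, (ζ ^ (r + 1)) ^ T = 1 := fun r => by
    rw [← pow_mul, mul_comm, pow_mul, h, one_pow]
  have hre : ∀ r : ℕ, ((((r : ℝ) + 1 : ℝ) : ℂ) * β ^ 2).re = ((r : ℝ) + 1) * (β ^ 2).re :=
    fun r => Complex.re_ofReal_mul _ _
  have hre' : ∀ r : ℕ, 0 < ((((r : ℝ) + 1 : ℝ) : ℂ) * β ^ 2).re := fun r => by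
    rw [hre]; positivity
  have h1 : Tendsto (fun s : ℝ => ∑' r : ℕ, z ^ (r + 1) / (r + 1) *
      ((s : ℂ) * th (ζ ^ (r + 1)) ((((r : ℝ) + 1 : ℝ) : ℂ) * β ^ 2) s)) (𝓝[>] 0)
      (𝓝 (∑' r : ℕ, z ^ (r + 1) / (r + 1) * (G T (ζ ^ (r + 1)) *
        ∫ u in Set.Ioi (0 : ℝ), gs ((((r : ℝ) + 1 : ℝ) : ℂ) * β ^ 2) u))) := by
    refine tendsto_tsum_of_dominated_convergence
      (bound := fun r => cw r * (1 / √((β ^ 2).re))) (summable_cw.mul_right _)
      (fun r => (th_tendsto hT (hζ r) _ (hre' r)).const_mul _) ?_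
    filter_upwards [self_mem_nhdsWithin] with s hs r
    have h2 := norm_th_le (norm_one_of_pow hT (hζ r)) _ (hre' r) s hs
    have h3 : ‖((r : ℂ) + 1)‖ = (r : ℝ) + 1 := by
      have : ((r : ℂ) + 1) = ((r + 1 : ℕ) : ℂ) := by push_cast; ring
      rw [this, Complex.norm_natCast]; push_cast; ring
    have h4 : ‖z‖ ^ (r + 1) ≤ 1 := pow_le_one₀ (norm_nonneg _) hz
    rw [norm_mul, norm_div, norm_pow, h3]
    rw [hre, ← div_div, Real.sqrt_div (by positivity)] at h2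
    have h5 : 0 < √((β ^ 2).re) := Real.sqrt_pos.mpr hβ2
    have h6 : 0 ≤ √(Real.pi / (r + 1)) := Real.sqrt_nonneg _
    calc _ ≤ 1 / ((r : ℝ) + 1) * (√(Real.pi / (r + 1)) / √((β ^ 2).re) / 2) := by gcongr
      _ = cw r * (1 / √((β ^ 2).re)) / 2 := by unfold cw; field_simp
      _ ≤ _ := by
        have : 0 ≤ cw r * (1 / √((β ^ 2).re)) := by have := cw_pos r; positivity
        linarith
  have h2 : (∑' r : ℕ, z ^ (r + 1) / (r + 1) * (G T (ζ ^ (r + 1)) *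
        ∫ u in Set.Ioi (0 : ℝ), gs ((((r : ℝ) + 1 : ℝ) : ℂ) * β ^ 2) u)) = Lz z T ζ / (2 * β) := by
    unfold Lz
    rw [← tsum_div_const]
    refine tsum_congr fun r => ?_
    rw [integral_gs _ (by positivity) β hβ hβ2]
    unfold cw
    push_cast
    ring
  rw [h2] at h1
  refine h1.congr' ?_
  filter_upwards [self_mem_nhdsWithin] with s hs
  rw [Lam_swap z _ hz (norm_pt_lt hn β hβ2 s hs), ← tsum_mul_left]
  refine tsum_congr fun r => ?_
  have : ∑' j : ℕ, ((ζ * gs (β ^ 2) s) ^ (r + 1)) ^ ((j + 1) ^ 2) =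
      th (ζ ^ (r + 1)) ((((r : ℝ) + 1 : ℝ) : ℂ) * β ^ 2) s := by
    unfold th
    refine tsum_congr fun j => ?_
    unfold gs
    rw [mul_pow, mul_pow, ← Complex.exp_nat_mul, ← Complex.exp_nat_mul]
    congr 2
    push_cast
    ring
  rw [this]
  ring

lemma re_Lz_le {ω : ℂ} (hω : ω ^ 2 + ω + 1 = 0) {T : ℕ} (hT : 0 < T) {ζ : ℂ} (h : ζ ^ T = 1) :
    (Lz ω T ζ).re ≤ (Lz ω 3 (ω ^ 2)).re := by
  have hn := (re_omega hω).2.le
  have h3 : (ω ^ 2) ^ 3 = 1 := by linear_combination (ω ^ 4 - ω ^ 3 + ω - 1) * hω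
  have s1 := Complex.hasSum_re (summable_Lz hn hT h).hasSum
  have s2 := Complex.hasSum_re (summable_Lz hn (by norm_num) h3).hasSum
  refine hasSum_le (fun r => ?_) s1 s2
  rw [Complex.re_ofReal_mul, Complex.re_ofReal_mul]
  exact mul_le_mul_of_nonneg_left (termwise hT h hω (r + 1)) (cw_pos r).le

lemma re_Lstar_pos {ω : ℂ} (hω : ω ^ 2 + ω + 1 = 0) : 0 < (Lz ω 3 (ω ^ 2)).re := by
  have hn := (re_omega hω).2
  have h3 : (ω ^ 2) ^ 3 = 1 := by linear_combination (ω ^ 4 - ω ^ 3 + ω - 1) * hω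
  have s2 := Complex.hasSum_re (summable_Lz hn.le (by norm_num) h3).hasSum
  have hpos : ∀ r : ℕ, 0 < ((cw r : ℂ) * (ω ^ (r + 1) * G 3 ((ω ^ 2) ^ (r + 1)))).re := by
    intro r
    rw [Complex.re_ofReal_mul, star_term hω]
    refine mul_pos (cw_pos r) ?_
    have : (2 + ω ^ (r + 1)) / 3 = (1 / 3 : ℝ) * (2 + ω ^ (r + 1)) := by push_cast; ring
    rw [this, Complex.re_ofReal_mul, Complex.add_re]
    have h1 : |(ω ^ (r + 1)).re| ≤ 1 := by
      refine (Complex.abs_re_le_norm _).trans ?_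
      rw [norm_pow, hn, one_pow]
    have := (abs_le.mp h1).1
    simp only [Complex.re_ofNat]
    linarith
  exact (hpos 0).trans_le (le_hasSum s2 0 fun r _ => (hpos r).le)

lemma im_Lstar_pos {ω : ℂ} (hω : ω ^ 2 + ω + 1 = 0) (him : 0 < ω.im) :
    0 < (Lz ω 3 (ω ^ 2)).im := by
  have hn := (re_omega hω).2
  have h3 : (ω ^ 2) ^ 3 = 1 := by linear_combination (ω ^ 4 - ω ^ 3 + ω - 1) * hω
  have h3' : ω ^ 3 = 1 := by linear_combination (ω - 1) * hω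
  have s2 := Complex.hasSum_im (summable_Lz hn.le (by norm_num) h3).hasSum
  have hterm : ∀ r : ℕ, ((cw r : ℂ) * (ω ^ (r + 1) * G 3 ((ω ^ 2) ^ (r + 1)))).im =
      cw r * ((ω ^ (r + 1)).im / 3) := by
    intro r
    rw [Complex.im_ofReal_mul, star_term hω]
    have : (2 + ω ^ (r + 1)) / 3 = (1 / 3 : ℝ) * (2 + ω ^ (r + 1)) := by push_cast; ring
    rw [this, Complex.im_ofReal_mul, Complex.add_im]
    simp only [Complex.im_ofNat]
    ring
  simp only [hterm] at s2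
  have h1 : Tendsto (fun M : ℕ => 3 * (M + 1)) atTop atTop :=
    tendsto_atTop_mono (fun M => by simp only [id]; omega) tendsto_id
  have h2 := s2.tendsto_sum_nat.comp h1
  have e2 : (ω ^ 2).im = -ω.im := by
    have : ω ^ 2 = -ω - 1 := by linear_combination hω
    rw [this]; simp
  have blk : ∀ M : ℕ, ∑ r ∈ range 3, cw (3 * M + r) * ((ω ^ (3 * M + r + 1)).im / 3) =
      (cw (3 * M) - cw (3 * M + 1)) * (ω.im / 3) := by
    intro M
    have e : ∀ k : ℕ, ω ^ (3 * M + k) = ω ^ k := fun k => by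
      rw [pow_add, pow_mul, h3', one_pow, one_mul]
    simp only [Finset.sum_range_succ, Finset.sum_range_zero, add_assoc, e]
    norm_num
    rw [e2, h3']
    simp
    ring
  have hle : ∀ M : ℕ, (cw 0 - cw 1) * (ω.im / 3) ≤
      ∑ r ∈ range (3 * (M + 1)), cw r * ((ω ^ (r + 1)).im / 3) := by
    intro M
    induction M with
    | zero => simpa using (blk 0).ge
    | succ M ih =>
      rw [Nat.mul_succ, Finset.sum_range_add, blk]
      have := cw_anti (Nat.lt_succ_self (3 * (M + 1)))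
      have : 0 ≤ (cw (3 * (M + 1)) - cw (3 * (M + 1) + 1)) * (ω.im / 3) :=
        mul_nonneg (by linarith) (by linarith)
      linarith
  have h4 := ge_of_tendsto' h2 hle
  have h5 := cw_anti (Nat.lt_succ_self 0)
  have : 0 < (cw 0 - cw 1) * (ω.im / 3) := mul_pos (by linarith) (by linarith)
  exact this.trans_le h4

end Pool.Agent.P.MP_fabcd1_nt
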