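import Pool.Agent.P.MP_fabcd1_nt.Limit

/-!
The twisted counts of partitions into squares do not stay in a periodic family of sectors.
-/

namespace Pool.Agent.P.MP_fabcd1_nt

open Finset Filter Topology

lemma interp {T : ℕ} (hT : 0 < T) (θ : ℕ → ℂ) :
    ∃ (ζ : ℂ) (D : ℕ) (a : ℕ → ℂ), ζ ^ T = 1 ∧ ∀ n, θ (n % T) = ∑ h ∈ range D, a h * (ζ ^ h) ^ n := by
  have hp := Complex.isPrimitiveRoot_exp T hT.ne'
  set ζ := Complex.exp (2 * Real.pi * Complex.I / T)
  set P := Lagrange.interpolate (range T) (fun r => ζ ^ r) θ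
  refine ⟨ζ, P.natDegree + 1, fun h => P.coeff h, hp.pow_eq_one, fun n => ?_⟩
  have hinj : Set.InjOn (fun r => ζ ^ r) (range T : Finset ℕ) := by
    intro a ha b hb hab
    exact hp.pow_inj (by simpa using ha) (by simpa using hb) hab
  have h1 := Lagrange.eval_interpolate_at_node θ hinj (mem_range.mpr (Nat.mod_lt n hT))
  have h2 : ζ ^ (n % T) = ζ ^ n := by
    conv_rhs => rw [← Nat.div_add_mod n T, pow_add, pow_mul, hp.pow_eq_one, one_pow, one_mul]
  rw [← h1, h2, Polynomial.eval_eq_sum_range]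
  refine Finset.sum_congr rfl fun h _ => ?_
  rw [← pow_mul, ← pow_mul, mul_comm n h]

lemma hasSum_Lam (z q : ℂ) (hz : ‖z‖ ≤ 1) (hq : ‖q‖ < 1) :
    HasSum (fun n => cf Sq z n * q ^ n) (Complex.exp (Lam z q)) :=
  hasSum_cf Sq z q hz hq

lemma compare {z : ℂ} (hz : ‖z‖ ≤ 1) {T : ℕ} (hT : 0 < T) (N : ℕ) (θ : ℕ → ℂ)
    (hθ : ∀ n ≥ N, ‖cf Sq z n‖ ≤ (θ (n % T) * cf Sq z n).re) :
    ∃ (ζ : ℂ) (D : ℕ) (a : ℕ → ℝ) (C : ℝ), ζ ^ T = 1 ∧ (∀ h, 0 ≤ a h) ∧ 0 ≤ C ∧
      ∀ (x : ℝ) (q : ℂ), 0 ≤ x → x < 1 → ‖q‖ = x →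
        Real.exp (Lam z q).re ≤ C + ∑ h ∈ range D, a h * Real.exp (Lam z (ζ ^ h * x)).re := by
  obtain ⟨ζ, D, a, hζ, ha⟩ := interp hT θ
  refine ⟨ζ, D, fun h => ‖a h‖, ∑ n ∈ range N, (‖cf Sq z n‖ + ‖θ (n % T) * cf Sq z n‖), hζ,
    fun _ => norm_nonneg _, by positivity, fun x q hx0 hx1 hq => ?_⟩
  have hn := norm_one_of_pow hT hζ
  have hqh : ∀ h : ℕ, ‖ζ ^ h * x‖ < 1 := by
    intro h
    rw [norm_mul, norm_pow, hn, one_pow, one_mul, Complex.norm_real, Real.norm_of_nonneg hx0]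
    exact hx1
  have h1 : HasSum (fun n => θ (n % T) * cf Sq z n * (x : ℂ) ^ n)
      (∑ h ∈ range D, a h * Complex.exp (Lam z (ζ ^ h * x))) := by
    have := hasSum_sum (s := range D) fun h _ => (hasSum_Lam z _ hz (hqh h)).mul_left (a h)
    refine (hasSum_congr_fun' fun n => ?_).mp this
    rw [ha, Finset.sum_mul, Finset.sum_mul]
    refine Finset.sum_congr rfl fun h _ => ?_
    rw [mul_pow]; ring
  have h2 := Complex.hasSum_re h1
  have h3 := (summable_norm_cf Sq z hz x hx0 hx1).hasSum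
  have h4 : HasSum (fun n => if n ∈ range N then (‖cf Sq z n‖ + ‖θ (n % T) * cf Sq z n‖) else 0)
      (∑ n ∈ range N, (‖cf Sq z n‖ + ‖θ (n % T) * cf Sq z n‖)) := by
    have := hasSum_sum_of_ne_finset_zero (L := SummationFilter.unconditional ℕ) (s := range N)
      (f := fun n => if n ∈ range N then (‖cf Sq z n‖ + ‖θ (n % T) * cf Sq z n‖) else 0)
      (fun n hn => if_neg hn)
    rwa [Finset.sum_congr rfl (fun n hn => if_pos hn)] at this
  have h5 := hasSum_le (fun n => ?_) h3 (h4.add h2)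
  · have h6 : Real.exp (Lam z q).re ≤ ∑' n, ‖cf Sq z n‖ * x ^ n := by
      rw [← Complex.norm_exp]
      refine HasSum.norm_le_of_bounded (hasSum_Lam z q hz (hq ▸ hx1)) h3 fun n => ?_
      rw [norm_mul, norm_pow, hq]
    refine h6.trans (h5.trans (add_le_add le_rfl ?_))
    refine (Complex.re_le_norm _).trans ((norm_sum_le _ _).trans (le_of_eq ?_))
    refine Finset.sum_congr rfl fun h _ => ?_
    rw [norm_mul, Complex.norm_exp]
  · have hxn : 0 ≤ x ^ n := pow_nonneg hx0 n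
    have hxn1 : x ^ n ≤ 1 := pow_le_one₀ hx0 hx1.le
    have hre : (θ (n % T) * cf Sq z n * (x : ℂ) ^ n).re = (θ (n % T) * cf Sq z n).re * x ^ n := by
      rw [← Complex.ofReal_pow, Complex.re_mul_ofReal]
    rw [hre]
    split_ifs with hn'
    · have h7 := (abs_le.mp (Complex.abs_re_le_norm (θ (n % T) * cf Sq z n))).1
      have h8 := norm_nonneg (cf Sq z n)
      have h9 := norm_nonneg (θ (n % T) * cf Sq z n)
      nlinarith
    · rw [zero_add]
      exact mul_le_mul_of_nonneg_right (hθ n (by simpa using hn')) hxn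

lemma exists_beta (A B : ℝ) (hA : 0 < A) (hB : 0 < B) :
    ∃ η : ℝ, 0 < 1 - η ^ 2 ∧ A / (2 * √(1 - η ^ 2)) < (A + η * B) / (2 * (1 + η ^ 2)) := by
  set η := min (1 / 2) (B / (4 * A)) with hη
  have h0 : 0 < η := lt_min (by norm_num) (by positivity)
  have h1 : η ≤ 1 / 2 := min_le_left _ _
  have h2 : η * (4 * A) ≤ B := (le_div_iff₀ (by positivity)).mp (min_le_right _ _)
  have h3 : 3 / 4 ≤ 1 - η ^ 2 := by nlinarith
  refine ⟨η, by linarith, ?_⟩
  have h4 : 1 - η ^ 2 ≤ √(1 - η ^ 2) := by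
    apply Real.le_sqrt_of_sq_le
    nlinarith [sq_nonneg η]
  calc A / (2 * √(1 - η ^ 2)) ≤ A / (2 * (1 - η ^ 2)) := by gcongr
    _ < _ := by
      rw [div_lt_div_iff₀ (by positivity) (by positivity)]
      have h5 : η * B * (3 / 4) ≤ η * B * (1 - η ^ 2) := by gcongr
      have h6 : η * (η * (4 * A)) ≤ η * B := by gcongr
      have h7 : 0 < η * B := by positivity
      nlinarith

theorem not_sector {ω : ℂ} (hω : ω ^ 2 + ω + 1 = 0) (him : 0 < ω.im) {T : ℕ} (hT : 0 < T) (N : ℕ)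
    (θ : ℕ → ℂ) : ¬ ∀ n ≥ N, ‖cf Sq ω n‖ ≤ (θ (n % T) * cf Sq ω n).re := by
  intro hθ
  have hn := (re_omega hω).2
  obtain ⟨ζ, D, a, C, hζ, ha, hC, hcmp⟩ := compare hn.le hT N θ hθ
  have h3 : (ω ^ 2) ^ 3 = 1 := by linear_combination (ω ^ 4 - ω ^ 3 + ω - 1) * hω
  have hA := re_Lstar_pos hω
  have hB := im_Lstar_pos hω him
  set A := (Lz ω 3 (ω ^ 2)).re with hAdef
  set B := (Lz ω 3 (ω ^ 2)).im with hBdef
  obtain ⟨η, hη, hlt⟩ := exists_beta A B hA hB
  set β : ℂ := ⟨1, η⟩ with hβdef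
  set b : ℝ := √(1 - η ^ 2) with hb
  have hb0 : 0 < b := Real.sqrt_pos.mpr hη
  have hβ2 : (β ^ 2).re = 1 - η ^ 2 := by simp [hβdef, sq]
  have hb2 : ((b : ℂ) ^ 2).re = 1 - η ^ 2 := by
    rw [← Complex.ofReal_pow, Complex.ofReal_re, hb, Real.sq_sqrt hη.le]
  obtain ⟨μ, hμ1, hμ2⟩ := exists_between hlt
  obtain ⟨μ', hμ3, hμ4⟩ := exists_between hμ2
  have hμ0 : 0 < μ := lt_trans (by positivity) hμ1
  have t1 := (Complex.continuous_re.tendsto _).comp
    (Lam_tendsto hn.le (by norm_num) h3 β (by simp [hβdef]) (hβ2 ▸ hη))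
  have e1 : (Lz ω 3 (ω ^ 2) / (2 * β)).re = (A + η * B) / (2 * (1 + η ^ 2)) := by
    rw [Complex.div_re, ← hAdef, ← hBdef]
    simp [hβdef, Complex.normSq_apply]
    field_simp
  rw [e1] at t1
  have ev1 := t1.eventually (lt_mem_nhds hμ4)
  have ev2 : ∀ h ∈ range D, ∀ᶠ s : ℝ in 𝓝[>] 0,
      ((s : ℂ) * Lam ω (ζ ^ h * gs ((b : ℂ) ^ 2) s)).re < μ := by
    intro h _
    have hζh : (ζ ^ h) ^ T = 1 := by rw [← pow_mul, mul_comm, pow_mul, hζ, one_pow]
    have t2 := (Complex.continuous_re.tendsto _).comp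
      (Lam_tendsto hn.le hT hζh (b : ℂ) (by simpa using hb0) (hb2 ▸ hη))
    have e2 : (Lz ω T (ζ ^ h) / (2 * (b : ℂ))).re < μ := by
      have : (2 * (b : ℂ)) = ((2 * b : ℝ) : ℂ) := by push_cast; ring
      rw [this, Complex.div_ofReal_re]
      refine lt_of_le_of_lt ?_ hμ1
      gcongr
      exact re_Lz_le hω hT hζh
    exact t2.eventually (gt_mem_nhds e2)
  have ev3 := (Filter.eventually_all_finset (range D)).mpr ev2
  have t4 : Tendsto (fun s : ℝ => Real.exp ((μ' - μ) * s⁻¹)) (𝓝[>] 0) atTop :=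
    Real.tendsto_exp_atTop.comp (tendsto_inv_nhdsGT_zero.const_mul_atTop (by linarith))
  have ev4 := t4.eventually (eventually_gt_atTop (C + ∑ h ∈ range D, a h))
  obtain ⟨s, ⟨⟨hs1, hs2⟩, hs3⟩, hs⟩ := (((ev1.and ev3).and ev4).and self_mem_nhdsWithin).exists
  have hs0 : 0 < s := hs
  set x : ℝ := Real.exp (-(1 - η ^ 2) * s ^ 2) with hx
  have hx1 : x < 1 := by
    rw [hx, Real.exp_lt_one_iff]
    have : 0 < (1 - η ^ 2) * s ^ 2 := by positivity
    linarith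
  have hgx : gs ((b : ℂ) ^ 2) s = x := by
    unfold gs
    rw [hx, Complex.ofReal_exp, ← Complex.ofReal_pow, hb, Real.sq_sqrt hη.le]
    push_cast
    ring_nf
  have hq : ‖ω ^ 2 * gs (β ^ 2) s‖ = x := by
    rw [norm_pt (by rw [norm_pow, hn, one_pow]), hβ2]
  have main := hcmp x _ (Real.exp_pos _).le hx1 hq
  simp only [Function.comp, Complex.re_ofReal_mul] at hs1
  simp only [Complex.re_ofReal_mul, hgx] at hs2
  have l1 : Real.exp (μ' * s⁻¹) ≤ Real.exp (Lam ω (ω ^ 2 * gs (β ^ 2) s)).re := by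
    apply Real.exp_le_exp.mpr
    rw [← div_eq_mul_inv, div_le_iff₀ hs0]
    linarith
  have l2 : ∑ h ∈ range D, a h * Real.exp (Lam ω (ζ ^ h * x)).re ≤
      (∑ h ∈ range D, a h) * Real.exp (μ * s⁻¹) := by
    rw [Finset.sum_mul]
    refine Finset.sum_le_sum fun h hh => mul_le_mul_of_nonneg_left ?_ (ha h)
    apply Real.exp_le_exp.mpr
    rw [← div_eq_mul_inv, le_div_iff₀ hs0]
    linarith [hs2 h hh]
  have l3 : 1 ≤ Real.exp (μ * s⁻¹) := Real.one_le_exp (by positivity)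
  have l4 : Real.exp (μ' * s⁻¹) = Real.exp ((μ' - μ) * s⁻¹) * Real.exp (μ * s⁻¹) := by
    rw [← Real.exp_add]; ring_nf
  have l5 : (C + ∑ h ∈ range D, a h) * Real.exp (μ * s⁻¹) <
      Real.exp ((μ' - μ) * s⁻¹) * Real.exp (μ * s⁻¹) := by gcongr
  nlinarith

open Classical in
lemma cf_eq_counts {ω : ℂ} (hω : ω ^ 2 + ω + 1 = 0) (S : Set ℕ) (n : ℕ) :
    cf S ω n = ∑ a : Fin 3, ω ^ (a : ℕ) * ((univ.filter fun P : n.Partition =>
      (∀ i ∈ P.parts, i ∈ S) ∧ P.parts.card % 3 = a).card : ℕ) := by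
  have h3 : ω ^ 3 = 1 := by linear_combination (ω - 1) * hω
  unfold cf
  simp only [Finset.card_filter, Nat.cast_sum, Finset.mul_sum]
  rw [Finset.sum_comm]
  refine Finset.sum_congr rfl fun P _ => ?_
  by_cases h : ∀ i ∈ P.parts, i ∈ S
  · have e : ω ^ P.parts.card = ω ^ (P.parts.card % 3) := by
      conv_lhs => rw [← Nat.div_add_mod P.parts.card 3, pow_add, pow_mul, h3, one_pow, one_mul]
    rw [if_pos h, e, Finset.sum_eq_single (⟨P.parts.card % 3, Nat.mod_lt _ (by norm_num)⟩ : Fin 3)]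
    · rw [if_pos ⟨h, rfl⟩]; simp
    · intro a _ ha
      rw [if_neg]
      · simp
      · rintro ⟨-, h2⟩
        exact ha (Fin.ext h2.symm)
    · simp
  · rw [if_neg h]
    symm
    refine Finset.sum_eq_zero fun a _ => ?_
    rw [if_neg (fun h2 => h h2.1)]
    simp

lemma sector_of_max {ω : ℂ} (hω : ω ^ 2 + ω + 1 = 0) (p : Fin 3 → ℕ) (i : Fin 3)
    (hi : ∀ j, p j ≤ p i) :
    ‖∑ a : Fin 3, ω ^ (a : ℕ) * (p a : ℂ)‖ ≤
      (2 * (ω ^ 2) ^ (i : ℕ) * ∑ a : Fin 3, ω ^ (a : ℕ) * (p a : ℂ)).re := by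
  obtain ⟨hre, hn⟩ := re_omega hω
  have h3 : ω ^ 3 = 1 := by linear_combination (ω - 1) * hω
  have hre2 : (ω ^ 2).re = -1 / 2 := by
    have : ω ^ 2 = -ω - 1 := by linear_combination hω
    rw [this]; simp [hre]; norm_num
  have key : ∀ (u : ℂ) (x y z : ℝ), ‖u‖ = 1 → y ≤ x → z ≤ x →
      ‖u * (x + ω * y + ω ^ 2 * z)‖ ≤ (2 * (x + ω * y + ω ^ 2 * z)).re := by
    intro u x y z hu hy hz
    have e : (x + ω * y + ω ^ 2 * z : ℂ) = -(ω * (x - y : ℝ)) - ω ^ 2 * (x - z : ℝ) := by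
      push_cast
      linear_combination (x : ℂ) * hω
    have e2 : (2 * (x + ω * y + ω ^ 2 * z : ℂ)).re = (x - y) + (x - z) := by
      have : (2 : ℂ) = ((2 : ℝ) : ℂ) := by simp
      rw [this, Complex.re_ofReal_mul, Complex.add_re, Complex.add_re, Complex.re_mul_ofReal,
        Complex.re_mul_ofReal, hre, hre2, Complex.ofReal_re]
      ring
    rw [e2, norm_mul, hu, one_mul, e]
    refine (norm_sub_le _ _).trans (le_of_eq ?_)
    rw [norm_neg, norm_mul, norm_mul, norm_pow, hn, Complex.norm_real, Complex.norm_real,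
      Real.norm_of_nonneg (by linarith), Real.norm_of_nonneg (by linarith)]
    ring
  have c : ∀ j, (p j : ℝ) ≤ p i := fun j => by exact_mod_cast hi j
  rw [Fin.sum_univ_three]
  fin_cases i
  · have := key 1 (p 0) (p 1) (p 2) (by simp) (c 1) (c 2)
    convert this using 2 <;> simp
  · have := key ω (p 1) (p 2) (p 0) hn (c 2) (c 0)
    convert this using 2
    · simp
      linear_combination (-(p 0 : ℂ)) * h3
    · simp
      linear_combination (2 * (p 1 : ℂ) + 2 * ω * (p 2 : ℂ)) * h3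
  · have := key (ω ^ 2) (p 2) (p 0) (p 1) (by rw [norm_pow, hn, one_pow]) (c 0) (c 1)
    convert this using 2
    · simp
      linear_combination (-(p 0 : ℂ) - ω * (p 1 : ℂ)) * h3
    · simp
      linear_combination (2 * ω * (p 0 : ℂ) + 2 * ω ^ 2 * (p 1 : ℂ) + 2 * (ω ^ 3 + 1) * (p 2 : ℂ)) * h3

open Classical in
/-- A residue class with the most partitions into squares cannot be chosen periodically. -/
theorem argmax_not_periodic (v : ℕ → Fin 3) (T N : ℕ) (hT : 0 < T)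
    (hper : ∀ n ≥ N, v (n + T) = v n)
    (hmax : ∀ n ≥ N, ∀ j : Fin 3,
      (univ.filter fun P : n.Partition => (∀ i ∈ P.parts, i ∈ Sq) ∧ P.parts.card % 3 = j).card ≤
      (univ.filter fun P : n.Partition => (∀ i ∈ P.parts, i ∈ Sq) ∧ P.parts.card % 3 = v n).card) :
    False := by
  set ω : ℂ := ⟨-1 / 2, √3 / 2⟩ with hωdef
  have h3 : √3 * √3 = 3 := Real.mul_self_sqrt (by norm_num)
  have hω : ω ^ 2 + ω + 1 = 0 := by
    apply Complex.ext
    · simp [hωdef, sq]; nlinarith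
    · simp [hωdef, sq]; ring
  have him : 0 < ω.im := by simp [hωdef]
  have hiter : ∀ k n, n ≥ N → v (n + T * k) = v n := by
    intro k
    induction k with
    | zero => simp
    | succ k ih =>
      intro n hn
      rw [Nat.mul_succ, ← add_assoc, hper _ (by omega), ih n hn]
  have hv : ∀ n ≥ N, v (n % T + T * N) = v n := by
    intro n hn
    have h1 : N ≤ n % T + T * N := le_add_left (Nat.le_mul_of_pos_left N hT)
    rw [← hiter (n / T) _ h1, ← hiter N n hn]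
    congr 1
    have := Nat.mod_add_div n T
    omega
  refine not_sector hω him hT N (fun r => 2 * (ω ^ 2) ^ (v (r + T * N) : ℕ)) fun n hn => ?_
  rw [cf_eq_counts hω, hv n hn]
  exact sector_of_max hω (fun a => (univ.filter fun P : n.Partition =>
      (∀ i ∈ P.parts, i ∈ Sq) ∧ P.parts.card % 3 = a).card) (v n) (hmax n hn)

end Pool.Agent.P.MP_fabcd1_nt
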