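import Mathlib

/-!
Riemann sum estimates for twisted theta sums.
-/

namespace Pool.Agent.P.MP_fabcd1_nt

open Finset Filter Topology MeasureTheory

lemma exp_var (w : ℂ) (hw : 0 < w.re) (a b : ℝ) (hab : a ≤ b) :
    ‖Complex.exp (-w * a) - Complex.exp (-w * b)‖ ≤
      ‖w‖ / w.re * (Real.exp (-w.re * a) - Real.exp (-w.re * b)) := by
  have hf : ∀ x : ℝ, HasDerivAt (fun x : ℝ => Complex.exp (-w * a) - Complex.exp (-w * x))
      (w * Complex.exp (-w * x)) x := by
    intro x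
    have h1 : HasDerivAt (fun x : ℝ => -w * (x : ℂ)) (-w) x := by
      simpa using (Complex.ofRealCLM.hasDerivAt (x := x)).const_mul (-w)
    have h2 := (h1.cexp).const_sub (Complex.exp (-w * a))
    exact h2.congr_deriv (by ring)
  have hB : ∀ x : ℝ, HasDerivAt
      (fun x : ℝ => ‖w‖ / w.re * (Real.exp (-w.re * a) - Real.exp (-w.re * x)))
      (‖w‖ * Real.exp (-w.re * x)) x := by
    intro x
    have h1 : HasDerivAt (fun x : ℝ => -w.re * x) (-w.re) x := by
      simpa using (hasDerivAt_id x).const_mul (-w.re)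
    have h2 := ((h1.exp).const_sub (Real.exp (-w.re * a))).const_mul (‖w‖ / w.re)
    exact h2.congr_deriv (by field_simp)
  have := image_norm_le_of_norm_deriv_right_le_deriv_boundary
    (f := fun x : ℝ => Complex.exp (-w * a) - Complex.exp (-w * x))
    (f' := fun x : ℝ => w * Complex.exp (-w * x)) (a := a) (b := b)
    (fun x _ => (hf x).continuousAt.continuousWithinAt)
    (fun x _ => (hf x).hasDerivWithinAt)
    (B := fun x : ℝ => ‖w‖ / w.re * (Real.exp (-w.re * a) - Real.exp (-w.re * x)))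
    (B' := fun x : ℝ => ‖w‖ * Real.exp (-w.re * x)) (by simp) hB
    (by
      intro x _
      rw [norm_mul, Complex.norm_exp]
      simp)
  exact this ⟨hab, le_rfl⟩

/-- complex gaussian -/
noncomputable def gs (w : ℂ) (u : ℝ) : ℂ := Complex.exp (-w * (u : ℂ) ^ 2)

/-- real gaussian -/
noncomputable def gr (p : ℝ) (u : ℝ) : ℝ := Real.exp (-p * u ^ 2)

lemma norm_gs (w : ℂ) (u : ℝ) : ‖gs w u‖ = gr w.re u := by
  unfold gs gr
  rw [norm_cexp_neg_mul_sq]

lemma gr_anti (p : ℝ) (hp : 0 < p) {u v : ℝ} (hu : 0 ≤ u) (huv : u ≤ v) : gr p v ≤ gr p u := by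
  unfold gr
  apply Real.exp_le_exp.mpr
  have : u ^ 2 ≤ v ^ 2 := by gcongr
  nlinarith

lemma gr_pos (p u : ℝ) : 0 < gr p u := Real.exp_pos _

lemma gs_var (w : ℂ) (hw : 0 < w.re) {u0 u u1 : ℝ} (h0 : 0 ≤ u0) (h1 : u0 ≤ u) (h2 : u ≤ u1) :
    ‖gs w u - gs w u0‖ ≤ ‖w‖ / w.re * (gr w.re u0 - gr w.re u1) := by
  have h := exp_var w hw (u0 ^ 2) (u ^ 2) (by gcongr)
  rw [norm_sub_rev] at h
  have h3 := gr_anti w.re hw (h0.trans h1) h2
  unfold gs
  push_cast at h
  refine h.trans ?_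
  have : 0 ≤ ‖w‖ / w.re := by positivity
  unfold gr at h3 ⊢
  gcongr

lemma continuous_gs (w : ℂ) : Continuous (gs w) := by
  unfold gs; fun_prop

lemma continuous_gr (p : ℝ) : Continuous (gr p) := by
  unfold gr; fun_prop

/-- normalised quadratic Gauss sum -/
noncomputable def G (T : ℕ) (ξ : ℂ) : ℂ := (∑ b ∈ range T, ξ ^ ((b + 1) ^ 2)) / T

lemma norm_one_of_pow {T : ℕ} (hT : 0 < T) {ξ : ℂ} (h : ξ ^ T = 1) : ‖ξ‖ = 1 :=
  Complex.norm_eq_one_of_pow_eq_one h hT.ne'

lemma norm_G_le {T : ℕ} (hT : 0 < T) {ξ : ℂ} (h : ξ ^ T = 1) : ‖G T ξ‖ ≤ 1 := by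
  unfold G
  have hT' : (0 : ℝ) < T := by exact_mod_cast hT
  rw [norm_div, Complex.norm_natCast, div_le_one hT']
  refine (norm_sum_le _ _).trans ?_
  simp [norm_one_of_pow hT h]

lemma block {T : ℕ} (hT : 0 < T) {ξ : ℂ} (h : ξ ^ T = 1) (w : ℂ) (hw : 0 < w.re) (s : ℝ)
    (hs : 0 < s) (M : ℕ) :
    ‖(s : ℂ) * ∑ b ∈ range T, ξ ^ ((T * M + b + 1) ^ 2) * gs w (s * ((T * M + b : ℕ) + 1)) -
      G T ξ * ∫ u in (s * T * M)..(s * T * (M + 1 : ℕ)), gs w u‖ ≤
      2 * s * T * (‖w‖ / w.re) * (gr w.re (s * T * M) - gr w.re (s * T * (M + 1 : ℕ))) := by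
  have hT' : (0 : ℝ) < T := by exact_mod_cast hT
  set u0 : ℝ := s * T * M with hu0
  set u1 : ℝ := s * T * (M + 1 : ℕ) with hu1
  set D : ℝ := ‖w‖ / w.re * (gr w.re u0 - gr w.re u1) with hD
  have hu0n : 0 ≤ u0 := by positivity
  have hu01 : u1 - u0 = s * T := by rw [hu0, hu1]; push_cast; ring
  have hle : u0 ≤ u1 := by nlinarith [mul_pos hs hT']
  have hper : ∀ b : ℕ, ξ ^ ((T * M + b + 1) ^ 2) = ξ ^ ((b + 1) ^ 2) := by
    intro b
    have : (T * M + b + 1) ^ 2 = T * (T * M ^ 2 + 2 * M * (b + 1)) + (b + 1) ^ 2 := by ring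
    rw [this, pow_add, pow_mul, h, one_pow, one_mul]
  have hA : ‖(s : ℂ) * ∑ b ∈ range T, ξ ^ ((b + 1) ^ 2) *
      (gs w (s * ((T * M + b : ℕ) + 1)) - gs w u0)‖ ≤ s * T * D := by
    rw [norm_mul, Complex.norm_real, Real.norm_of_nonneg hs.le, mul_assoc]
    gcongr
    refine (norm_sum_le _ _).trans ?_
    have : ∀ b ∈ range T, ‖ξ ^ ((b + 1) ^ 2) *
        (gs w (s * ((T * M + b : ℕ) + 1)) - gs w u0)‖ ≤ D := by
      intro b hb
      rw [norm_mul, norm_pow, norm_one_of_pow hT h, one_pow, one_mul]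
      have hb' : (b : ℝ) + 1 ≤ T := by exact_mod_cast mem_range.mp hb
      have hb0 : (0 : ℝ) ≤ b := by positivity
      refine gs_var w hw hu0n ?_ ?_
      · rw [hu0]; push_cast; nlinarith
      · rw [hu1]; push_cast; nlinarith
    simpa using Finset.sum_le_card_nsmul _ _ _ this
  have hB : ‖∫ u in u0..u1, (gs w u - gs w u0)‖ ≤ D * |u1 - u0| := by
    refine intervalIntegral.norm_integral_le_of_norm_le_const fun u hu => ?_
    rw [Set.uIoc_of_le hle] at hu
    exact gs_var w hw hu0n hu.1.le hu.2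
  rw [intervalIntegral.integral_sub ((continuous_gs w).intervalIntegrable _ _)
    (continuous_const.intervalIntegrable _ _), intervalIntegral.integral_const, hu01,
    abs_of_pos (mul_pos hs hT')] at hB
  have hG := norm_G_le hT h
  have heq : (s : ℂ) * ∑ b ∈ range T, ξ ^ ((T * M + b + 1) ^ 2) *
      gs w (s * ((T * M + b : ℕ) + 1)) - G T ξ * ∫ u in u0..u1, gs w u =
      (s : ℂ) * ∑ b ∈ range T, ξ ^ ((b + 1) ^ 2) *
      (gs w (s * ((T * M + b : ℕ) + 1)) - gs w u0) -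
      G T ξ * ((∫ u in u0..u1, gs w u) - (s * T) • gs w u0) := by
    simp only [hper, mul_sub, Finset.sum_sub_distrib, ← Finset.sum_mul]
    unfold G
    have : (T : ℂ) ≠ 0 := by exact_mod_cast hT.ne'
    rw [Complex.real_smul]
    push_cast
    field_simp
    ring
  rw [heq]
  refine (norm_sub_le _ _).trans ?_
  rw [norm_mul (G T ξ)]
  have hD0 : 0 ≤ D * (s * T) := (norm_nonneg _).trans hB
  have : ‖G T ξ‖ * ‖(∫ u in u0..u1, gs w u) - (s * T) • gs w u0‖ ≤ 1 * (D * (s * T)) := by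
    gcongr
  have h2 : 2 * s * T * (‖w‖ / w.re) * (gr w.re u0 - gr w.re u1) = s * T * D + 1 * (D * (s * T)) := by
    rw [hD]; ring
  rw [h2]
  exact add_le_add hA this

lemma partial_est {T : ℕ} (hT : 0 < T) {ξ : ℂ} (h : ξ ^ T = 1) (w : ℂ) (hw : 0 < w.re) (s : ℝ)
    (hs : 0 < s) (M : ℕ) :
    ‖(s : ℂ) * ∑ j ∈ range (T * M), ξ ^ ((j + 1) ^ 2) * gs w (s * (j + 1)) -
      G T ξ * ∫ u in (0 : ℝ)..(s * T * M), gs w u‖ ≤
      2 * s * T * (‖w‖ / w.re) * (1 - gr w.re (s * T * M)) := by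
  induction M with
  | zero => simp [gr]
  | succ M ih =>
    have hb := block hT h w hw s hs M
    rw [Nat.mul_succ, Finset.sum_range_add,
      ← intervalIntegral.integral_add_adjacent_intervals (b := s * T * M)
        ((continuous_gs w).intervalIntegrable _ _) ((continuous_gs w).intervalIntegrable _ _)]
    have := norm_add_le_of_le ih hb
    refine le_trans (le_of_eq ?_) (this.trans (le_of_eq ?_))
    · congr 1; ring
    · ring

lemma sum_gr_le (p : ℝ) (hp : 0 < p) (s : ℝ) (hs : 0 < s) (N : ℕ) :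
    s * ∑ j ∈ range N, gr p (s * (j + 1)) ≤ √(Real.pi / p) / 2 := by
  have h1 : s * ∑ j ∈ range N, gr p (s * (j + 1)) ≤ ∫ u in (0 : ℝ)..(s * N), gr p u := by
    induction N with
    | zero => simp
    | succ N ih =>
      rw [Finset.sum_range_succ, mul_add,
        ← intervalIntegral.integral_add_adjacent_intervals (b := s * N)
        ((continuous_gr p).intervalIntegrable _ _) ((continuous_gr p).intervalIntegrable _ _)]
      refine add_le_add ih ?_
      have hN : (0 : ℝ) ≤ s * N := by positivity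
      have := intervalIntegral.integral_mono_on (μ := volume) (a := s * N) (b := s * (N + 1 : ℕ))
        (f := fun _ => gr p (s * (N + 1))) (g := gr p) (by push_cast; nlinarith)
        (continuous_const.intervalIntegrable _ _) ((continuous_gr p).intervalIntegrable _ _)
        (fun x hx => gr_anti p hp (hN.trans hx.1) (by simpa using hx.2))
      rw [intervalIntegral.integral_const] at this
      refine le_trans (le_of_eq ?_) this
      push_cast
      simp only [smul_eq_mul]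
      ring
  refine h1.trans ?_
  rw [← integral_gaussian_Ioi p, intervalIntegral.integral_of_le (by positivity)]
  refine setIntegral_mono_set (integrable_exp_neg_mul_sq hp).integrableOn
    (Eventually.of_forall fun x => (gr_pos p x).le) ?_
  exact (Set.Ioc_subset_Ioi_self).eventuallyLE

lemma summable_gr (p : ℝ) (hp : 0 < p) (s : ℝ) (hs : 0 < s) :
    Summable (fun j : ℕ => gr p (s * (j + 1))) := by
  refine summable_of_sum_range_le (c := √(Real.pi / p) / 2 / s) (fun j => (gr_pos _ _).le) fun N => ?_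
  rw [le_div_iff₀ hs, mul_comm]
  exact sum_gr_le p hp s hs N

/-- twisted theta sum -/
noncomputable def th (ξ w : ℂ) (s : ℝ) : ℂ := ∑' j : ℕ, ξ ^ ((j + 1) ^ 2) * gs w (s * (j + 1))

lemma summable_th {ξ : ℂ} (h : ‖ξ‖ = 1) (w : ℂ) (hw : 0 < w.re) (s : ℝ) (hs : 0 < s) :
    Summable (fun j : ℕ => ξ ^ ((j + 1) ^ 2) * gs w (s * (j + 1))) := by
  refine Summable.of_norm_bounded (summable_gr w.re hw s hs) fun j => ?_
  rw [norm_mul, norm_pow, h, one_pow, one_mul, norm_gs]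

lemma norm_th_le {ξ : ℂ} (h : ‖ξ‖ = 1) (w : ℂ) (hw : 0 < w.re) (s : ℝ) (hs : 0 < s) :
    ‖(s : ℂ) * th ξ w s‖ ≤ √(Real.pi / w.re) / 2 := by
  have ht := (((summable_th h w hw s hs).hasSum.tendsto_sum_nat).const_mul (s : ℂ)).norm
  refine le_of_tendsto' ht fun N => ?_
  refine le_trans ?_ (sum_gr_le w.re hw s hs N)
  rw [norm_mul, Complex.norm_real, Real.norm_of_nonneg hs.le]
  gcongr
  refine (norm_sum_le _ _).trans (le_of_eq (Finset.sum_congr rfl fun j _ => ?_))
  rw [norm_mul, norm_pow, h, one_pow, one_mul, norm_gs]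

lemma th_est {T : ℕ} (hT : 0 < T) {ξ : ℂ} (h : ξ ^ T = 1) (w : ℂ) (hw : 0 < w.re) (s : ℝ)
    (hs : 0 < s) :
    ‖(s : ℂ) * th ξ w s - G T ξ * ∫ u in Set.Ioi (0 : ℝ), gs w u‖ ≤ 2 * s * T * (‖w‖ / w.re) := by
  have hT' : (0 : ℝ) < T := by exact_mod_cast hT
  have h1 : Tendsto (fun M : ℕ => T * M) atTop atTop :=
    tendsto_atTop_mono (fun M => Nat.le_mul_of_pos_left M hT) tendsto_id
  have h2 := ((summable_th (norm_one_of_pow hT h) w hw s hs).hasSum.tendsto_sum_nat).comp h1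
  have h3 : Tendsto (fun M : ℕ => s * T * (M : ℝ)) atTop atTop :=
    tendsto_natCast_atTop_atTop.const_mul_atTop (by positivity)
  have h4 := intervalIntegral_tendsto_integral_Ioi (f := gs w) (μ := volume) 0
    (integrable_cexp_neg_mul_sq hw).integrableOn h3
  have h5 := ((h2.const_mul (s : ℂ)).sub (h4.const_mul (G T ξ))).norm
  refine le_of_tendsto' h5 fun M => ?_
  refine (partial_est hT h w hw s hs M).trans ?_
  have : 0 ≤ 2 * s * T * (‖w‖ / w.re) := by positivity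
  nlinarith [gr_pos w.re (s * T * M)]

lemma th_tendsto {T : ℕ} (hT : 0 < T) {ξ : ℂ} (h : ξ ^ T = 1) (w : ℂ) (hw : 0 < w.re) :
    Tendsto (fun s : ℝ => (s : ℂ) * th ξ w s) (𝓝[>] 0)
      (𝓝 (G T ξ * ∫ u in Set.Ioi (0 : ℝ), gs w u)) := by
  rw [tendsto_iff_norm_sub_tendsto_zero]
  have h0 : Tendsto (fun s : ℝ => 2 * s * T * (‖w‖ / w.re)) (𝓝[>] 0) (𝓝 0) := by
    have : Continuous (fun s : ℝ => 2 * s * T * (‖w‖ / w.re)) := by fun_prop
    simpa using (this.tendsto 0).mono_left nhdsWithin_le_nhds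
  refine squeeze_zero' (Eventually.of_forall fun _ => norm_nonneg _) ?_ h0
  filter_upwards [self_mem_nhdsWithin] with s hs
  exact th_est hT h w hw s hs

lemma integral_gs (r : ℝ) (hr : 0 < r) (β : ℂ) (hβ : 0 < β.re) (hβ2 : 0 < (β ^ 2).re) :
    ∫ u in Set.Ioi (0 : ℝ), gs (r * β ^ 2) u = (√(Real.pi / r) : ℝ) / (2 * β) := by
  have hre : 0 < ((r : ℂ) * β ^ 2).re := by
    rw [Complex.re_ofReal_mul]; positivity
  have hβ0 : β ≠ 0 := by rintro rfl; simp at hβ
  have hr0 : (r : ℂ) ≠ 0 := by exact_mod_cast hr.ne'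
  unfold gs
  rw [integral_gaussian_complex_Ioi hre]
  have hsq : ((√(Real.pi / r) : ℝ) : ℂ) ^ 2 = Real.pi / r := by
    rw [← Complex.ofReal_pow, Real.sq_sqrt (by positivity)]; push_cast; ring
  have h1 : (Real.pi : ℂ) / (r * β ^ 2) = (((√(Real.pi / r) : ℝ) : ℂ) / β) ^ 2 := by
    rw [div_pow, hsq]; field_simp
  have h2 : 0 < (((√(Real.pi / r) : ℝ) : ℂ) / β).re := by
    rw [div_eq_mul_inv, Complex.re_ofReal_mul, Complex.inv_re]
    have : 0 < √(Real.pi / r) := Real.sqrt_pos.mpr (by positivity)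
    have : 0 < Complex.normSq β := Complex.normSq_pos.mpr hβ0
    positivity
  rw [h1, one_div, Complex.sq_cpow_two_inv h2]
  field_simp

end Pool.Agent.P.MP_fabcd1_nt
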